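import Pool.Agent.helper40.SG.W3

/-!
# The functional `W` of the pencil polynomial

`PencilLaw n` is the statement of the pencil law (module A3).
-/

set_option autoImplicit false

open MeasureTheory ProbabilityTheory Filter Topology Set
open scoped NNReal ENNReal

namespace Pool.Agent.helper40.SG

open Pool.Agent.helper84.SG

/-- the statement of `pencil_law n` -/
def PencilLaw (n : ℕ) : Prop :=
  ∀ (Ψ : (Fin (n + 1) → ℂ) → ℝ≥0∞), Measurable Ψ →
    (∀ (ω : ℂ) (f), ‖ω‖ = 1 → Ψ (ω • f) = Ψ f) →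
    (∫⁻ v, ENNReal.ofReal (vand v) ∂(ens n)) * ∫⁻ M, Ψ (pcoef n (ppoly M)) ∂(pen n) =
      ∫⁻ v, Ψ (pcoef n (vpoly v)) * ENNReal.ofReal (vand v) ∂(ens n)

theorem ppoly_eq {n : ℕ} (M : (Fin n → Fin n → ℂ) × (Fin n → Fin n → ℂ)) :
    ppoly M = ∑ σ : Equiv.Perm (Fin n), Equiv.Perm.sign σ •
      vpoly (fun i => (M.1 (σ i) i, M.2 (σ i) i)) := by
  unfold ppoly
  rw [Matrix.det_apply]
  refine Finset.sum_congr rfl fun σ _ => ?_
  congr 1
  unfold vpoly
  refine Finset.prod_congr rfl fun i _ => ?_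
  simp only [Matrix.sub_apply, Matrix.smul_apply, Matrix.map_apply, Matrix.of_apply, smul_eq_mul]
  rw [mul_comm]

theorem continuous_pc (n : ℕ) : Continuous
    (fun M : (Fin n → Fin n → ℂ) × (Fin n → Fin n → ℂ) => pcoef n (ppoly M)) := by
  have e : (fun M : (Fin n → Fin n → ℂ) × (Fin n → Fin n → ℂ) => pcoef n (ppoly M)) =
      fun M => ∑ σ : Equiv.Perm (Fin n), Equiv.Perm.sign σ •
        pcoef n (vpoly (fun i => (M.1 (σ i) i, M.2 (σ i) i))) := by
    funext M
    rw [ppoly_eq]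
    funext k
    simp only [pcoef, Polynomial.finsetSum_coeff, Finset.sum_apply, Pi.smul_apply]
    refine Finset.sum_congr rfl fun σ _ => ?_
    rw [Polynomial.coeff_smul]
  rw [e]
  apply continuous_finsetSum
  intro σ _
  apply Continuous.const_smul
  exact (continuous_vpoly n).comp (by fun_prop)

theorem measurable_pc (n : ℕ) : Measurable
    (fun M : (Fin n → Fin n → ℂ) × (Fin n → Fin n → ℂ) => pcoef n (ppoly M)) :=
  (continuous_pc n).measurable

theorem W_law {n : ℕ} (h : PencilLaw n) (g : ℝ → ℝ≥0∞) (hg : Measurable g) :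
    ∫⁻ M, g (Wc (pcoef n (ppoly M))) ∂(pen n) = AA n g := by
  have h1 := h (fun f => g (Wc f)) (hg.comp (measurable_Wc n)) (by
    intro ω f hω
    simp only [Wc_smul, hω, one_mul])
  have h2 := ens_factor n g hg (fun _ => 1) measurable_const (fun _ _ _ => rfl)
  simp only [mul_one] at h2
  rw [h2, CC_eq] at h1
  have h3 : (n.factorial : ℝ≥0∞) ^ n * AA n g * BB n (fun _ => 1) =
      ((n.factorial : ℝ≥0∞) ^ n * BB n (fun _ => 1)) * AA n g := by ring
  rw [h3] at h1
  have hC0 := CC_ne_zero n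
  have hCt := CC_ne_top n
  rw [CC_eq] at hC0 hCt
  exact (ENNReal.mul_right_inj hC0 hCt).1 h1

/-- A5 -/
theorem W_indep_of {n : ℕ} (h : PencilLaw n) (g : ℝ → ℝ≥0∞) (hg : Measurable g)
    (Ψ : (Fin (n + 1) → ℂ) → ℝ≥0∞) (hΨ : Measurable Ψ)
    (hinv : ∀ (c : ℂ) (f), c ≠ 0 → Ψ (c • f) = Ψ f) :
    ∫⁻ M, g (Wc (pcoef n (ppoly M))) * Ψ (pcoef n (ppoly M)) ∂(pen n) =
      (∫⁻ M, g (Wc (pcoef n (ppoly M))) ∂(pen n)) * ∫⁻ M, Ψ (pcoef n (ppoly M)) ∂(pen n) := by
  have hω : ∀ (ω : ℂ) (f : Fin (n + 1) → ℂ), ‖ω‖ = 1 → Ψ (ω • f) = Ψ f := by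
    intro ω f hω
    apply hinv
    intro h0
    rw [h0, norm_zero] at hω
    exact zero_ne_one hω
  have h1 := h (fun f => g (Wc f) * Ψ f) ((hg.comp (measurable_Wc n)).mul hΨ) (by
    intro ω f hω'
    simp only [Wc_smul, hω', one_mul, hω ω f hω'])
  have h2 := h Ψ hΨ hω
  have h3 := ens_factor n g hg Ψ hΨ hinv
  have h4 := ens_factor n (fun _ => 1) measurable_const Ψ hΨ hinv
  simp only [one_mul, AA_one, mul_one] at h4
  have hC0 := CC_ne_zero n
  have hCt := CC_ne_top n
  apply (ENNReal.mul_right_inj hC0 hCt).1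
  rw [h1, h3, W_law h g hg]
  have h5 : (∫⁻ v, ENNReal.ofReal (vand v) ∂(ens n)) *
      (AA n g * ∫⁻ M, Ψ (pcoef n (ppoly M)) ∂(pen n)) =
      AA n g * ((∫⁻ v, ENNReal.ofReal (vand v) ∂(ens n)) *
        ∫⁻ M, Ψ (pcoef n (ppoly M)) ∂(pen n)) := by ring
  rw [h5, h2, h4]
  ring

theorem rho_mellin (m : ℕ) (ζ : ℂ) (hζ : 0 ≤ ζ.re) :
    Integrable (fun r : ℝ => (r : ℂ) ^ (2 * ζ)) (rho m) ∧
      ∫ r, (r : ℂ) ^ (2 * ζ) ∂(rho m) =
        Complex.Gamma (m + 1 + ζ) / Complex.Gamma (m + 1) := by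
  have hdm := measurable_dens m
  have hlt : ∀ᵐ r ∂((volume : Measure ℝ).restrict (Ioi 0)),
      ENNReal.ofReal (2 / (m.factorial : ℝ) * r ^ (2 * m + 1) * Real.exp (-r ^ 2)) < ∞ :=
    Eventually.of_forall fun r => ENNReal.ofReal_lt_top
  let G : ℝ → ℂ := fun t => (1 / (m.factorial : ℂ)) *
    ((Real.exp (-t) : ℂ) * (t : ℂ) ^ ((m + 1 + ζ : ℂ) - 1))
  have hre : 0 < ((m : ℂ) + 1 + ζ).re := by
    simp only [Complex.add_re, Complex.natCast_re, Complex.one_re]
    have : (0 : ℝ) ≤ m := Nat.cast_nonneg m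
    linarith
  have hGint : IntegrableOn G (Ioi 0) := by
    have h0 := Complex.GammaIntegral_convergent hre
    unfold IntegrableOn at h0
    unfold IntegrableOn
    exact Integrable.const_mul h0 _
  have hfac : (m.factorial : ℂ) ≠ 0 := by exact_mod_cast Nat.factorial_ne_zero m
  have hpt : ∀ r ∈ Ioi (0 : ℝ),
      (ENNReal.ofReal (2 / (m.factorial : ℝ) * r ^ (2 * m + 1) *
        Real.exp (-r ^ 2))).toReal • (r : ℂ) ^ (2 * ζ) =
      (|(2 : ℝ)| * r ^ ((2 : ℝ) - 1)) • G (r ^ (2 : ℝ)) := by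
    intro r hr
    have hr' : (0 : ℝ) < r := hr
    have hrC : (r : ℂ) ≠ 0 := by exact_mod_cast hr'.ne'
    rw [ENNReal.toReal_ofReal (by positivity)]
    have e1 : r ^ ((2 : ℝ) - 1) = r := by norm_num
    have e2 : r ^ (2 : ℝ) = r ^ 2 := Real.rpow_ofNat r 2
    rw [e1, e2, abs_of_pos (by norm_num : (0 : ℝ) < 2)]
    simp only [G, Complex.real_smul]
    have e3 : (((r ^ 2 : ℝ) : ℂ)) ^ ((m + 1 + ζ : ℂ) - 1) =
        (r : ℂ) ^ (2 * m) * (r : ℂ) ^ (2 * ζ) := by
      have e4 : ((m : ℂ) + 1 + ζ) - 1 = m + ζ := by ring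
      rw [e4]
      push_cast
      rw [pow_two, Complex.mul_cpow_ofReal_nonneg hr'.le hr'.le, ← Complex.cpow_add _ _ hrC]
      rw [show (m : ℂ) + ζ + (m + ζ) = ((2 * m : ℕ) : ℂ) + 2 * ζ by push_cast; ring,
        Complex.cpow_add _ _ hrC, Complex.cpow_natCast]
    rw [e3]
    push_cast
    field_simp
    ring
  constructor
  · unfold rho
    rw [integrable_withDensity_iff_integrable_smul' hdm hlt]
    have h1 := (integrableOn_Ioi_comp_rpow_iff G (p := 2) (by norm_num)).2 hGint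
    exact (integrableOn_congr_fun hpt measurableSet_Ioi).2 h1
  · unfold rho
    rw [integral_withDensity_eq_integral_toReal_smul hdm hlt,
      setIntegral_congr_fun measurableSet_Ioi hpt, integral_comp_rpow_Ioi G (by norm_num)]
    simp only [G]
    rw [integral_const_mul]
    have h2 := Complex.Gamma_eq_integral hre
    rw [Complex.GammaIntegral] at h2
    rw [Complex.Gamma_nat_eq_factorial, h2]
    simp only [Complex.ofReal_exp]
    ring

theorem cpow_prod {ι : Type*} (s : Finset ι) (x : ι → ℝ) (hx : ∀ i ∈ s, 0 ≤ x i) (w : ℂ) :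
    ((∏ i ∈ s, x i : ℝ) : ℂ) ^ w = ∏ i ∈ s, ((x i : ℂ)) ^ w := by
  classical
  induction s using Finset.induction_on with
  | empty => simp
  | insert a s ha ih =>
    rw [Finset.prod_insert ha, Finset.prod_insert ha, Complex.ofReal_mul,
      Complex.mul_cpow_ofReal_nonneg (hx a (Finset.mem_insert_self _ _))
        (Finset.prod_nonneg fun i hi => hx i (Finset.mem_insert_of_mem hi)),
      ih fun i hi => hx i (Finset.mem_insert_of_mem hi)]

/-- A6 -/
theorem W_mellin_of {n : ℕ} (h : PencilLaw n) (ζ : ℂ) (hζ : 0 ≤ ζ.re) :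
    Integrable (fun M => ((Wc (pcoef n (ppoly M)) : ℝ) : ℂ) ^ (2 * ζ)) (pen n) ∧
    ∫ M, ((Wc (pcoef n (ppoly M)) : ℝ) : ℂ) ^ (2 * ζ) ∂(pen n) =
      (Complex.Gamma (n + 1 + ζ) / Complex.Gamma (n + 1)) ^ n := by
  have hWm : Measurable fun M : (Fin n → Fin n → ℂ) × (Fin n → Fin n → ℂ) =>
      Wc (pcoef n (ppoly M)) := (measurable_Wc n).comp (measurable_pc n)
  have hPm : Measurable fun r : Fin n → ℝ => ∏ k, r k := by fun_prop
  have hmap : (pen n).map (fun M => Wc (pcoef n (ppoly M))) =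
      (Measure.pi fun _ : Fin n => rho n).map (fun r => ∏ k, r k) := by
    apply Measure.ext_of_lintegral
    intro g hg
    rw [lintegral_map hg hWm, lintegral_map hg hPm, W_law h g hg]
    rfl
  have hfm : Measurable fun w : ℝ => ((w : ℂ)) ^ (2 * ζ) := by fun_prop
  have hcongr : (fun r : Fin n → ℝ => (((∏ k, r k : ℝ)) : ℂ) ^ (2 * ζ)) =ᵐ[
      Measure.pi fun _ : Fin n => rho n] fun r => ∏ k, ((r k : ℂ)) ^ (2 * ζ) := by
    filter_upwards [pi_rho_pos n n] with r hr
    exact cpow_prod _ _ (fun i _ => (hr i).le) _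
  have hrho := rho_mellin n ζ hζ
  constructor
  · have h1 : Integrable (fun w : ℝ => ((w : ℂ)) ^ (2 * ζ))
        ((pen n).map (fun M => Wc (pcoef n (ppoly M)))) := by
      rw [hmap, integrable_map_measure hfm.aestronglyMeasurable hPm.aemeasurable]
      refine Integrable.congr ?_ hcongr.symm
      exact Integrable.fintype_prod (f := fun _ (r : ℝ) => ((r : ℂ)) ^ (2 * ζ))
        (fun _ => hrho.1)
    exact (integrable_map_measure hfm.aestronglyMeasurable hWm.aemeasurable).1 h1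
  · have h1 := integral_map (μ := pen n) hWm.aemeasurable
      (f := fun w : ℝ => ((w : ℂ)) ^ (2 * ζ)) hfm.aestronglyMeasurable
    rw [← h1, hmap, integral_map hPm.aemeasurable hfm.aestronglyMeasurable,
      integral_congr_ae hcongr,
      integral_fintype_prod_eq_prod (fun _ (r : ℝ) => ((r : ℂ)) ^ (2 * ζ)), Finset.prod_const,
      Finset.card_univ, Fintype.card_fin, hrho.2]

theorem cg_singleton (z : ℂ) : cg {z} = 0 := by
  rw [← lintegral_indicator_one (measurableSet_singleton z),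
    lintegral_cg _ (measurable_one.indicator (measurableSet_singleton z))]
  rw [lintegral_eq_zero_iff' (by
    apply Measurable.aemeasurable
    exact Measurable.mul (by fun_prop) (measurable_one.indicator (measurableSet_singleton z)))]
  have : ∀ᵐ w : ℂ, w ≠ z := by
    rw [ae_iff]
    simp
  filter_upwards [this] with w hw
  rw [indicator_of_notMem (by simpa using hw)]
  simp

theorem ens_snd_ne (n : ℕ) : ∀ᵐ v ∂(ens n), ∀ k, (v k).2 ≠ 0 := by
  rw [ae_all_iff]
  intro k
  have h1 : ∀ᵐ v ∂(cg.prod cg), v.2 ≠ 0 := by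
    rw [ae_iff]
    have : {v : ℂ × ℂ | ¬ v.2 ≠ 0} = univ ×ˢ {0} := by
      ext v; simp
    rw [this, Measure.prod_prod, cg_singleton, mul_zero]
  exact (Measure.tendsto_eval_ae_ae (μ := fun _ : Fin n => cg.prod cg) (i := k)).eventually h1

theorem coeff_ppoly {n : ℕ} (M : (Fin n → Fin n → ℂ) × (Fin n → Fin n → ℂ)) :
    (ppoly M).coeff n = (Matrix.of M.2).det := by
  have h := Polynomial.coeff_det_X_add_C_card (Matrix.of M.2) (-(Matrix.of M.1))
  rw [Fintype.card_fin] at h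
  rw [← h]
  unfold ppoly
  congr 2
  ext i j
  simp [sub_eq_add_neg]

theorem coeff_vpoly {n : ℕ} (v : Fin n → ℂ × ℂ) : (vpoly v).coeff n = ∏ k, (v k).2 := by
  have h := Polynomial.coeff_prod_of_natDegree_le (Finset.univ : Finset (Fin n))
    (fun k => Polynomial.C (v k).2 * Polynomial.X - Polynomial.C (v k).1) 1 (by
      intro k _
      rw [sub_eq_add_neg, ← Polynomial.C_neg]
      exact Polynomial.natDegree_linear_le)
  rw [Finset.card_univ, Fintype.card_fin, mul_one] at h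
  unfold vpoly
  rw [h]
  refine Finset.prod_congr rfl fun k _ => ?_
  simp

/-- A7 -/
theorem ae_det_ne_zero_of {n : ℕ} (h : PencilLaw n) : ∀ᵐ M ∂(pen n), (Matrix.of M.2).det ≠ 0 := by
  classical
  have hms : MeasurableSet {f : Fin (n + 1) → ℂ | f (Fin.last n) = 0} :=
    measurableSet_eq_fun (measurable_pi_apply _) measurable_const
  have hΨ : Measurable ({f : Fin (n + 1) → ℂ | f (Fin.last n) = 0}.indicator
      (1 : (Fin (n + 1) → ℂ) → ℝ≥0∞)) := measurable_one.indicator hms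
  have h1 := h _ hΨ (by
    intro ω f hω
    have hω0 : ω ≠ 0 := by
      intro h0
      rw [h0, norm_zero] at hω
      exact zero_ne_one hω
    by_cases hf : f (Fin.last n) = 0
    · rw [indicator_of_mem (by simpa using Or.inr hf), indicator_of_mem (by simpa using hf)]
      rfl
    · rw [indicator_of_notMem (by simp [hω0, hf]), indicator_of_notMem (by simpa using hf)])
  have h2 : ∫⁻ v, {f : Fin (n + 1) → ℂ | f (Fin.last n) = 0}.indicator
      (1 : (Fin (n + 1) → ℂ) → ℝ≥0∞) (pcoef n (vpoly v)) * ENNReal.ofReal (vand v) ∂(ens n) = 0 := by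
    rw [lintegral_eq_zero_iff' (by
      apply Measurable.aemeasurable
      exact (hΨ.comp (measurable_vcoef n)).mul
        (ENNReal.measurable_ofReal.comp (continuous_vand n).measurable))]
    filter_upwards [ens_snd_ne n] with v hv
    have : pcoef n (vpoly v) ∉ {f : Fin (n + 1) → ℂ | f (Fin.last n) = 0} := by
      intro hmem
      have h3 : (vpoly v).coeff n = 0 := hmem
      rw [coeff_vpoly, Finset.prod_eq_zero_iff] at h3
      obtain ⟨k, _, hk⟩ := h3
      exact hv k hk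
    rw [indicator_of_notMem this, zero_mul]
    rfl
  rw [h2] at h1
  have h3 := (mul_eq_zero.1 h1).resolve_left (CC_ne_zero n)
  have h4 := (lintegral_eq_zero_iff (hΨ.comp (measurable_pc n))).1 h3
  filter_upwards [h4] with M hM
  intro h0
  have hmem : pcoef n (ppoly M) ∈ {f : Fin (n + 1) → ℂ | f (Fin.last n) = 0} := by
    change (ppoly M).coeff n = 0
    rw [coeff_ppoly]; exact h0
  simp only [Function.comp_apply] at hM
  rw [indicator_of_mem hmem] at hM
  exact one_ne_zero hM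

end Pool.Agent.helper40.SG
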