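import Pool.Agent.helper84.SG.Defs

/-!
# The functional `W` of a polynomial: multiplicativity and measurability
-/

set_option autoImplicit false

open MeasureTheory ProbabilityTheory Filter Topology Polynomial
open scoped NNReal ENNReal

namespace Pool.Agent.helper40.SG

open Pool.Agent.helper84.SG

/-- The Euclidean norm on `ℂ × ℂ`. -/
noncomputable def en (v : ℂ × ℂ) : ℝ := Real.sqrt (‖v.1‖ ^ 2 + ‖v.2‖ ^ 2)

theorem en_nonneg (v : ℂ × ℂ) : 0 ≤ en v := Real.sqrt_nonneg _

theorem en_sq (v : ℂ × ℂ) : en v ^ 2 = ‖v.1‖ ^ 2 + ‖v.2‖ ^ 2 := Real.sq_sqrt (by positivity)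

theorem en_smul (c : ℂ) (v : ℂ × ℂ) : en (c • v) = ‖c‖ * en v := by
  unfold en
  rw [Prod.smul_fst, Prod.smul_snd, smul_eq_mul, smul_eq_mul, norm_mul, norm_mul]
  rw [show (‖c‖ * ‖v.1‖) ^ 2 + (‖c‖ * ‖v.2‖) ^ 2 = ‖c‖ ^ 2 * (‖v.1‖ ^ 2 + ‖v.2‖ ^ 2) by ring,
    Real.sqrt_mul (by positivity), Real.sqrt_sq (norm_nonneg _)]

theorem continuous_en : Continuous en := by unfold en; fun_prop

/-- `W` for polynomials. -/
noncomputable def WP (p : ℂ[X]) : ℝ :=
  ‖p.leadingCoeff‖ * (p.roots.map fun z => Real.sqrt (1 + ‖z‖ ^ 2)).prod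

theorem WP_mul (p q : ℂ[X]) : WP (p * q) = WP p * WP q := by
  unfold WP
  by_cases hp : p = 0
  · simp [hp]
  by_cases hq : q = 0
  · simp [hq]
  rw [leadingCoeff_mul, norm_mul, roots_mul (mul_ne_zero hp hq), Multiset.map_add,
    Multiset.prod_add]
  ring

theorem WP_one : WP 1 = 1 := by simp [WP]

theorem WP_C (c : ℂ) : WP (C c) = ‖c‖ := by simp [WP]

theorem WP_prod {ι : Type*} (s : Finset ι) (f : ι → ℂ[X]) :
    WP (∏ i ∈ s, f i) = ∏ i ∈ s, WP (f i) := by
  classical
  induction s using Finset.induction_on with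
  | empty => simp [WP_one]
  | insert a s ha ih => rw [Finset.prod_insert ha, Finset.prod_insert ha, WP_mul, ih]

theorem WP_linear (a b : ℂ) : WP (C b * X - C a) = en (a, b) := by
  by_cases hb : b = 0
  · subst hb
    have : (C (0 : ℂ) * X - C a : ℂ[X]) = C (-a) := by simp
    rw [this, WP_C, norm_neg]
    simp [en]
  · have hb' : 0 < ‖b‖ := norm_pos_iff.2 hb
    unfold WP
    have hl : (C b * X - C a : ℂ[X]).leadingCoeff = b := by
      rw [sub_eq_add_neg, ← C_neg]
      exact leadingCoeff_linear hb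
    rw [hl, roots_C_mul_X_sub_C _ hb]
    simp only [Multiset.map_singleton, Multiset.prod_singleton, en]
    rw [norm_mul, norm_inv]
    have e : ‖a‖ ^ 2 + ‖b‖ ^ 2 = ‖b‖ ^ 2 * (1 + (‖b‖⁻¹ * ‖a‖) ^ 2) := by
      field_simp
      ring
    rw [e, Real.sqrt_mul (by positivity), Real.sqrt_sq hb'.le]

theorem WP_vpoly {n : ℕ} (v : Fin n → ℂ × ℂ) : WP (vpoly v) = ∏ k, en (v k) := by
  unfold vpoly
  rw [WP_prod]
  exact Finset.prod_congr rfl fun k _ => WP_linear _ _

theorem natDegree_vpoly {n : ℕ} (v : Fin n → ℂ × ℂ) : (vpoly v).natDegree ≤ n := by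
  unfold vpoly
  refine (natDegree_prod_le _ _).trans ?_
  calc ∑ k : Fin n, (C (v k).2 * X - C (v k).1).natDegree ≤ ∑ _k : Fin n, 1 := by
        refine Finset.sum_le_sum fun k _ => ?_
        rw [sub_eq_add_neg, ← C_neg]
        exact natDegree_linear_le
    _ = n := by simp

theorem ofc_pcoef {n : ℕ} {p : ℂ[X]} (h : p.natDegree ≤ n) : ofc (pcoef n p) = p := by
  unfold ofc pcoef
  rw [Fin.sum_univ_eq_sum_range (fun k => C (p.coeff k) * X ^ k) (n + 1)]
  simp only [C_mul_X_pow_eq_monomial]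
  exact (p.as_sum_range' (n + 1) (by omega)).symm

theorem pcoef_ofc {n : ℕ} (f : Fin (n + 1) → ℂ) : pcoef n (ofc f) = f := by
  funext k
  unfold ofc pcoef
  simp only [finsetSum_coeff, coeff_C_mul_X_pow]
  rw [Finset.sum_eq_single k]
  · simp
  · intro j _ hj
    rw [if_neg]
    intro h
    exact hj (Fin.ext h.symm)
  · simp

theorem natDegree_ofc {n : ℕ} (f : Fin (n + 1) → ℂ) : (ofc f).natDegree ≤ n := by
  unfold ofc
  apply natDegree_sum_le_of_forall_le
  intro k _
  refine (natDegree_C_mul_X_pow_le _ _).trans ?_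
  omega

theorem Wc_eq {n : ℕ} (f : Fin (n + 1) → ℂ) : Wc f = WP (ofc f) := rfl

theorem Wc_pcoef {n : ℕ} {p : ℂ[X]} (h : p.natDegree ≤ n) : Wc (pcoef n p) = WP p := by
  rw [Wc_eq, ofc_pcoef h]

theorem Wc_vpoly {n : ℕ} (v : Fin n → ℂ × ℂ) : Wc (pcoef n (vpoly v)) = ∏ k, en (v k) := by
  rw [Wc_pcoef (natDegree_vpoly v), WP_vpoly]

theorem ofc_smul {n : ℕ} (c : ℂ) (f : Fin (n + 1) → ℂ) : ofc (c • f) = C c * ofc f := by
  unfold ofc
  rw [Finset.mul_sum]
  refine Finset.sum_congr rfl fun k _ => ?_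
  rw [Pi.smul_apply, smul_eq_mul, C_mul, mul_assoc]

theorem Wc_smul {n : ℕ} (c : ℂ) (f : Fin (n + 1) → ℂ) : Wc (c • f) = ‖c‖ * Wc f := by
  rw [Wc_eq, Wc_eq, ofc_smul, WP_mul, WP_C]

theorem Wc_nonneg {n : ℕ} (f : Fin (n + 1) → ℂ) : 0 ≤ Wc f := by
  unfold Wc
  apply mul_nonneg (norm_nonneg _)
  apply Multiset.prod_nonneg
  intro x hx
  obtain ⟨z, _, rfl⟩ := Multiset.mem_map.1 hx
  exact Real.sqrt_nonneg _

theorem vpoly_smul {n : ℕ} (c : Fin n → ℂ) (v : Fin n → ℂ × ℂ) :
    vpoly (fun k => c k • v k) = C (∏ k, c k) * vpoly v := by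
  unfold vpoly
  rw [map_prod, ← Finset.prod_mul_distrib]
  refine Finset.prod_congr rfl fun k _ => ?_
  simp only [Prod.smul_fst, Prod.smul_snd, smul_eq_mul, C_mul]
  ring

theorem pcoef_C_mul (n : ℕ) (c : ℂ) (p : ℂ[X]) : pcoef n (C c * p) = c • pcoef n p := by
  funext k
  simp [pcoef]

/-- Every polynomial of degree at most `n ≥ 1` is of the form `vpoly v`. -/
theorem exists_vpoly (n : ℕ) : ∀ p : ℂ[X], p.natDegree ≤ n + 1 →
    ∃ v : Fin (n + 1) → ℂ × ℂ, vpoly v = p := by
  induction n with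
  | zero =>
    intro p hp
    refine ⟨fun _ => (-p.coeff 0, p.coeff 1), ?_⟩
    unfold vpoly
    rw [Fin.prod_univ_succ, Fin.prod_univ_zero, mul_one]
    simp only [C_neg, sub_neg_eq_add]
    conv_rhs => rw [p.as_sum_range' 2 (by omega)]
    simp only [Finset.sum_range_succ, Finset.sum_range_zero, zero_add]
    rw [← C_mul_X_pow_eq_monomial, ← C_mul_X_pow_eq_monomial]
    ring
  | succ n ih =>
    intro p hp
    have hcons : ∀ (a : ℂ × ℂ) (v : Fin (n + 1) → ℂ × ℂ),
        vpoly (Fin.cons a v : Fin (n + 2) → ℂ × ℂ) = (C a.2 * X - C a.1) * vpoly v := by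
      intro a v
      unfold vpoly
      rw [Fin.prod_univ_succ]
      simp
    by_cases h : p.natDegree ≤ n + 1
    · obtain ⟨v, hv⟩ := ih p h
      refine ⟨Fin.cons (-1, 0) v, ?_⟩
      rw [hcons, hv]
      simp
    · have hd : p.degree ≠ 0 := by
        intro h0
        have := natDegree_eq_zero_iff_degree_le_zero.2 h0.le
        omega
      obtain ⟨z, hz⟩ := IsAlgClosed.exists_root p hd
      obtain ⟨q, hq⟩ := dvd_iff_isRoot.2 hz
      have hq0 : q ≠ 0 := by
        rintro rfl
        rw [mul_zero] at hq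
        rw [hq] at h
        simp at h
      have hdeg : q.natDegree ≤ n + 1 := by
        have := congrArg natDegree hq
        rw [natDegree_mul (X_sub_C_ne_zero z) hq0, natDegree_X_sub_C] at this
        omega
      obtain ⟨v, hv⟩ := ih q hdeg
      refine ⟨Fin.cons (z, 1) v, ?_⟩
      rw [hcons, hv, hq]
      simp

/-- Balanced representation. -/
theorem exists_balanced (n : ℕ) (f : Fin (n + 2) → ℂ) :
    ∃ v : Fin (n + 1) → ℂ × ℂ, pcoef (n + 1) (vpoly v) = f ∧
      ∀ k, en (v k) = (Wc f) ^ ((n + 1 : ℝ)⁻¹) := by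
  obtain ⟨v, hv⟩ := exists_vpoly n (ofc f) (natDegree_ofc f)
  have hW : Wc f = ∏ k, en (v k) := by
    rw [← Wc_vpoly, hv, pcoef_ofc]
  by_cases h0 : ∃ k, en (v k) = 0
  · obtain ⟨k, hk⟩ := h0
    have hW0 : Wc f = 0 := by rw [hW]; exact Finset.prod_eq_zero (Finset.mem_univ k) hk
    have hvk : v k = 0 := by
      have := en_sq (v k)
      rw [hk] at this
      have h1 : ‖(v k).1‖ ^ 2 = 0 := by nlinarith [sq_nonneg ‖(v k).1‖, sq_nonneg ‖(v k).2‖]
      have h2 : ‖(v k).2‖ ^ 2 = 0 := by nlinarith [sq_nonneg ‖(v k).1‖, sq_nonneg ‖(v k).2‖]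
      rw [sq_eq_zero_iff, norm_eq_zero] at h1 h2
      exact Prod.ext h1 h2
    have hf : f = 0 := by
      rw [← pcoef_ofc f, ← hv]
      have : vpoly v = 0 := by
        unfold vpoly
        apply Finset.prod_eq_zero (Finset.mem_univ k)
        rw [hvk]; simp
      rw [this]
      funext j; simp [pcoef]
    refine ⟨fun _ => 0, ?_, ?_⟩
    · rw [hf]
      have : vpoly (fun _ : Fin (n + 1) => (0 : ℂ × ℂ)) = 0 := by
        unfold vpoly
        apply Finset.prod_eq_zero (Finset.mem_univ (0 : Fin (n + 1)))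
        simp
      rw [this]
      funext j; simp [pcoef]
    · intro j
      rw [hW0, Real.zero_rpow (by positivity)]
      simp [en]
  · push Not at h0
    have hpos : ∀ k, 0 < en (v k) := fun k => lt_of_le_of_ne (en_nonneg _) (Ne.symm (h0 k))
    set t := (Wc f) ^ ((n + 1 : ℝ)⁻¹) with ht
    have htn : t ^ (n + 1) = Wc f := by
      rw [ht, ← Real.rpow_natCast, ← Real.rpow_mul (Wc_nonneg f)]
      push_cast
      rw [inv_mul_cancel₀ (by positivity), Real.rpow_one]
    have ht0 : 0 ≤ t := Real.rpow_nonneg (Wc_nonneg f) _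
    refine ⟨fun k => ((t / en (v k) : ℝ) : ℂ) • v k, ?_, ?_⟩
    · rw [vpoly_smul, ← Complex.ofReal_prod, Finset.prod_div_distrib, Finset.prod_const,
        Finset.card_univ, Fintype.card_fin, htn, hW, div_self (Finset.prod_pos fun k _ => hpos k).ne',
        Complex.ofReal_one, C_1, one_mul, hv, pcoef_ofc]
    · intro k
      rw [en_smul, Complex.norm_real, Real.norm_eq_abs, abs_of_nonneg (by have := hpos k; positivity),
        div_mul_cancel₀ _ (hpos k).ne']

theorem continuous_vpoly (n : ℕ) :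
    Continuous (fun v : Fin n → ℂ × ℂ => pcoef n (vpoly v)) := by
  apply continuous_pi
  intro k
  change Continuous fun v : Fin n → ℂ × ℂ => (vpoly v).coeff k
  generalize (k : ℕ) = j
  clear k
  induction n generalizing j with
  | zero =>
    have : (fun v : Fin 0 → ℂ × ℂ => (vpoly v).coeff j) = fun _ => (1 : ℂ[X]).coeff j := by
      funext v; simp [vpoly]
    rw [this]; exact continuous_const
  | succ n ih =>
    have e : ∀ v : Fin (n + 1) → ℂ × ℂ, vpoly v = (C (v 0).2 * X - C (v 0).1) *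
        vpoly (fun k => v k.succ) := by
      intro v
      unfold vpoly
      rw [Fin.prod_univ_succ]
    have e2 : (fun v : Fin (n + 1) → ℂ × ℂ => (vpoly v).coeff j) = fun v =>
        (if j = 0 then 0 else (v 0).2 * (vpoly (fun k => v k.succ)).coeff (j - 1)) -
          (v 0).1 * (vpoly (fun k => v k.succ)).coeff j := by
      funext v
      rw [e, sub_mul, coeff_sub, mul_assoc, coeff_C_mul, coeff_C_mul]
      congr 1
      split_ifs with h
      · subst h; simp
      · obtain ⟨i, rfl⟩ : ∃ i, j = i + 1 := ⟨j - 1, by omega⟩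
        rw [coeff_X_mul, Nat.add_sub_cancel]
    rw [e2]
    have h1 : ∀ i, Continuous fun v : Fin (n + 1) → ℂ × ℂ =>
        (vpoly (fun k => v k.succ)).coeff i := fun i =>
      (ih i).comp (continuous_pi fun k => continuous_apply k.succ)
    have h2 : Continuous fun v : Fin (n + 1) → ℂ × ℂ => (v 0).1 :=
      continuous_fst.comp (continuous_apply 0)
    have h3 : Continuous fun v : Fin (n + 1) → ℂ × ℂ => (v 0).2 :=
      continuous_snd.comp (continuous_apply 0)
    refine Continuous.sub ?_ (h2.mul (h1 j))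
    split_ifs with h
    · exact continuous_const
    · exact h3.mul (h1 (j - 1))

/-- A4 -/
theorem measurable_Wc (n : ℕ) : Measurable (Wc : (Fin (n + 1) → ℂ) → ℝ) := by
  cases n with
  | zero =>
    have : (Wc : (Fin (0 + 1) → ℂ) → ℝ) = fun f => ‖f 0‖ := by
      funext f
      rw [Wc_eq]
      have : ofc f = C (f 0) := by
        unfold ofc
        simp
      rw [this, WP_C]
    rw [this]
    fun_prop
  | succ n =>
    apply measurable_of_Iic
    intro c
    by_cases hc : c < 0
    · have : (Wc : (Fin (n + 1 + 1) → ℂ) → ℝ) ⁻¹' Set.Iic c = ∅ := by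
        ext f
        simp only [Set.mem_preimage, Set.mem_Iic, Set.mem_empty_iff_false, iff_false, not_le]
        exact hc.trans_le (Wc_nonneg f)
      rw [this]; exact MeasurableSet.empty
    · push Not at hc
      have hcpt : IsCompact {v : Fin (n + 1) → ℂ × ℂ | ∀ k, en (v k) ≤ c ^ ((n + 1 : ℝ)⁻¹)} := by
        apply Metric.isCompact_of_isClosed_isBounded
        · have : {v : Fin (n + 1) → ℂ × ℂ | ∀ k, en (v k) ≤ c ^ ((n + 1 : ℝ)⁻¹)} =
              ⋂ k, {v : Fin (n + 1) → ℂ × ℂ | en (v k) ≤ c ^ ((n + 1 : ℝ)⁻¹)} := by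
            ext v; simp
          rw [this]
          apply isClosed_iInter
          intro k
          exact isClosed_le (continuous_en.comp (continuous_apply k)) continuous_const
        · rw [isBounded_iff_forall_norm_le]
          refine ⟨c ^ ((n + 1 : ℝ)⁻¹), fun v hv => ?_⟩
          rw [pi_norm_le_iff_of_nonneg (Real.rpow_nonneg hc _)]
          intro k
          refine le_trans ?_ (hv k)
          rw [Prod.norm_def]
          apply max_le
          · apply Real.le_sqrt_of_sq_le
            have := sq_nonneg ‖(v k).2‖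
            linarith
          · apply Real.le_sqrt_of_sq_le
            have := sq_nonneg ‖(v k).1‖
            linarith
      have himg : (Wc : (Fin (n + 1 + 1) → ℂ) → ℝ) ⁻¹' Set.Iic c =
          (fun v : Fin (n + 1) → ℂ × ℂ => pcoef (n + 1) (vpoly v)) ''
            {v : Fin (n + 1) → ℂ × ℂ | ∀ k, en (v k) ≤ c ^ ((n + 1 : ℝ)⁻¹)} := by
        ext f
        simp only [Set.mem_preimage, Set.mem_Iic, Set.mem_image, Set.mem_ofPred_eq]
        constructor
        · intro h
          obtain ⟨v, hv, hk⟩ := exists_balanced n f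
          refine ⟨v, fun k => ?_, hv⟩
          rw [hk]
          exact Real.rpow_le_rpow (Wc_nonneg f) h (by positivity)
        · rintro ⟨v, hv, rfl⟩
          rw [Wc_vpoly]
          calc ∏ k, en (v k) ≤ ∏ _k : Fin (n + 1), c ^ ((n + 1 : ℝ)⁻¹) :=
                Finset.prod_le_prod (fun k _ => en_nonneg _) (fun k _ => hv k)
            _ = c := by
              rw [Finset.prod_const, Finset.card_univ, Fintype.card_fin, ← Real.rpow_natCast,
                ← Real.rpow_mul hc]
              push_cast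
              rw [inv_mul_cancel₀ (by positivity), Real.rpow_one]
      rw [himg]
      exact (hcpt.image (continuous_vpoly (n + 1))).measurableSet

end Pool.Agent.helper40.SG
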