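import Pool.Agent.helper40.SG.W1

/-!
# Polar coordinates for Gaussian vectors of `ℂ²`
-/

set_option autoImplicit false

open MeasureTheory ProbabilityTheory Filter Topology Set
open scoped NNReal ENNReal

namespace Pool.Agent.helper40.SG

open Pool.Agent.helper84.SG

theorem lintegral_cg (F : ℂ → ℝ≥0∞) (hF : Measurable F) :
    ∫⁻ z, F z ∂cg = ∫⁻ z : ℂ, ENNReal.ofReal (Real.pi⁻¹ * Real.exp (-‖z‖ ^ 2)) * F z := by
  unfold cg
  rw [lintegral_map hF measurable_toC, gaussianReal_of_var_ne_zero 0 (by norm_num),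
    prod_withDensity (measurable_gaussianPDF _ _) (measurable_gaussianPDF _ _),
    lintegral_withDensity_eq_lintegral_mul _ (by fun_prop)
      (g := fun a : ℝ × ℝ => F ((a.1 : ℂ) + (a.2 : ℂ) * Complex.I)) (hF.comp measurable_toC)]
  rw [← Complex.volume_preserving_equiv_real_prod.symm.lintegral_comp_emb
    (Complex.measurableEquivRealProd.symm.measurableEmbedding)]
  refine lintegral_congr fun p => ?_
  have e : (Complex.measurableEquivRealProd.symm p : ℂ) = (p.1 : ℂ) + (p.2 : ℂ) * Complex.I := by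
    rw [Complex.measurableEquivRealProd_symm_apply]
    apply Complex.ext <;> simp
  rw [e]
  simp only [Pi.mul_apply]
  congr 1
  unfold gaussianPDF gaussianPDFReal
  rw [← ENNReal.ofReal_mul (by positivity)]
  congr 1
  have h1 : ‖(p.1 : ℂ) + (p.2 : ℂ) * Complex.I‖ ^ 2 = p.1 ^ 2 + p.2 ^ 2 := by
    rw [Complex.norm_add_mul_I, Real.sq_sqrt (by positivity)]
  rw [h1]
  have h2 : (√(2 * Real.pi * ((1 / 2 : ℝ≥0) : ℝ)))⁻¹ * (√(2 * Real.pi * ((1 / 2 : ℝ≥0) : ℝ)))⁻¹ =
      Real.pi⁻¹ := by
    rw [← mul_inv, Real.mul_self_sqrt (by positivity)]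
    push_cast
    congr 1
    ring
  rw [mul_mul_mul_comm, h2, ← Real.exp_add]
  congr 2
  push_cast
  ring

theorem lintegral_cg2 (F : ℂ × ℂ → ℝ≥0∞) (hF : Measurable F) :
    ∫⁻ v, F v ∂(cg.prod cg) =
      ∫⁻ v : ℂ × ℂ, ENNReal.ofReal (Real.pi⁻¹ ^ 2 * Real.exp (-en v ^ 2)) * F v := by
  rw [lintegral_prod _ hF.aemeasurable]
  have h1 : ∀ a, ∫⁻ b, F (a, b) ∂cg =
      ∫⁻ b : ℂ, ENNReal.ofReal (Real.pi⁻¹ * Real.exp (-‖b‖ ^ 2)) * F (a, b) := fun a =>
    lintegral_cg _ (hF.comp (measurable_const.prodMk measurable_id))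
  simp only [h1]
  rw [lintegral_cg]
  · rw [Measure.volume_eq_prod, lintegral_prod]
    · refine lintegral_congr fun a => ?_
      rw [← lintegral_const_mul]
      · refine lintegral_congr fun b => ?_
        rw [← mul_assoc, ← ENNReal.ofReal_mul (by positivity)]
        congr 2
        rw [en_sq, mul_mul_mul_comm, ← Real.exp_add]
        ring_nf
      · exact Measurable.mul (by fun_prop) (hF.comp (measurable_const.prodMk measurable_id))
    · refine (Measurable.mul ?_ hF).aemeasurable
      have := continuous_en.measurable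
      fun_prop
  · apply Measurable.lintegral_prod_right'
      (f := fun p : ℂ × ℂ => ENNReal.ofReal (Real.pi⁻¹ * Real.exp (-‖p.2‖ ^ 2)) * F p)
    exact Measurable.mul (by fun_prop) hF

/-- `ℂ²` with the Euclidean norm -/
abbrev E2 := WithLp 2 (ℂ × ℂ)

theorem lintegral_E2 (G : ℂ × ℂ → ℝ≥0∞) (hG : Measurable G) :
    ∫⁻ v, G v = ∫⁻ x : E2, G (WithLp.ofLp x) := by
  have h := WithLp.volume_preserving_toLp ℂ ℂ
  have hm : Measurable fun x : E2 => G (WithLp.ofLp x) := by
    apply hG.comp
    exact (WithLp.prod_continuous_ofLp 2 ℂ ℂ).measurable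
  rw [← h.lintegral_comp hm]

theorem finrank_E2 : Module.finrank ℝ E2 = 4 := by
  rw [(WithLp.linearEquiv 2 ℝ (ℂ × ℂ)).finrank_eq, Module.finrank_prod, Complex.finrank_real_complex]

theorem lintegral_polar (g : E2 → ℝ≥0∞) (hg : Measurable g) :
    ∫⁻ x, g x = ∫⁻ u : Metric.sphere (0 : E2) 1, (∫⁻ r in Ioi (0 : ℝ),
      ENNReal.ofReal (r ^ 3) * g (r • (u : E2))) ∂(volume : Measure E2).toSphere := by
  have hmp := (volume : Measure E2).measurePreserving_homeomorphUnitSphereProd
  rw [finrank_E2] at hmp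
  have hmeas : Measurable fun p : Metric.sphere (0 : E2) 1 × Ioi (0 : ℝ) => g (p.2.1 • p.1.1) := by
    apply hg.comp
    fun_prop
  calc ∫⁻ x, g x = ∫⁻ x : ({(0)}ᶜ : Set E2), g x
          ∂((volume : Measure E2).comap Subtype.val) := by
        rw [lintegral_subtype_comap (measurableSet_singleton _).compl g, restrict_compl_singleton]
    _ = ∫⁻ p : Metric.sphere (0 : E2) 1 × Ioi (0 : ℝ), g (p.2.1 • p.1.1)
          ∂((volume : Measure E2).toSphere.prod (Measure.volumeIoiPow 3)) := by
        rw [← hmp.lintegral_comp hmeas]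
        refine lintegral_congr fun x => ?_
        congr 1
        have hx : ‖(x : E2)‖ ≠ 0 := by
          rw [norm_ne_zero_iff]
          exact x.2
        simp [smul_smul, hx]
    _ = ∫⁻ u : Metric.sphere (0 : E2) 1, ∫⁻ r : Ioi (0 : ℝ), g (r.1 • u.1)
          ∂(Measure.volumeIoiPow 3) ∂(volume : Measure E2).toSphere :=
        lintegral_prod _ hmeas.aemeasurable
    _ = _ := by
        refine lintegral_congr fun u => ?_
        have h1 : Measurable fun r : Ioi (0 : ℝ) => g (r.1 • u.1) := by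
          apply hg.comp
          fun_prop
        rw [Measure.volumeIoiPow, lintegral_withDensity_eq_lintegral_mul _ (by fun_prop) h1]
        exact lintegral_subtype_comap measurableSet_Ioi
          (fun r : ℝ => ENNReal.ofReal (r ^ 3) * g (r • (u : E2)))

/-- law of the square root of a `Gamma(m+1)` variable -/
noncomputable def rho (m : ℕ) : Measure ℝ :=
  (volume.restrict (Ioi 0)).withDensity
    (fun r => ENNReal.ofReal (2 / (m.factorial : ℝ) * r ^ (2 * m + 1) * Real.exp (-r ^ 2)))

theorem measurable_dens (m : ℕ) : Measurable fun r : ℝ =>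
    ENNReal.ofReal (2 / (m.factorial : ℝ) * r ^ (2 * m + 1) * Real.exp (-r ^ 2)) := by
  fun_prop

theorem lintegral_rho (m : ℕ) (F : ℝ → ℝ≥0∞) (hF : Measurable F) :
    ∫⁻ r, F r ∂(rho m) = ∫⁻ r in Ioi (0 : ℝ),
      ENNReal.ofReal (2 / (m.factorial : ℝ) * r ^ (2 * m + 1) * Real.exp (-r ^ 2)) * F r := by
  unfold rho
  rw [lintegral_withDensity_eq_lintegral_mul _ (measurable_dens m) hF]
  rfl

theorem rho_integral (m : ℕ) :
    IntegrableOn (fun r : ℝ => 2 / (m.factorial : ℝ) * r ^ (2 * m + 1) * Real.exp (-r ^ 2))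
      (Ioi 0) ∧ ∫ r in Ioi (0 : ℝ),
        2 / (m.factorial : ℝ) * r ^ (2 * m + 1) * Real.exp (-r ^ 2) = 1 := by
  have e : ∀ r : ℝ, 2 / (m.factorial : ℝ) * r ^ (2 * m + 1) * Real.exp (-r ^ 2) =
      2 / (m.factorial : ℝ) * (r ^ ((2 * m + 1 : ℕ) : ℝ) * Real.exp (-r ^ (2 : ℝ))) := by
    intro r
    rw [Real.rpow_natCast, Real.rpow_ofNat]
    ring
  simp only [e]
  constructor
  · apply Integrable.const_mul
    exact integrableOn_rpow_mul_exp_neg_rpow (by push_cast; linarith [(Nat.cast_nonneg m : (0 : ℝ) ≤ m)])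
      (by norm_num)
  · rw [integral_const_mul, integral_rpow_mul_exp_neg_rpow (by norm_num)
      (by push_cast; linarith [(Nat.cast_nonneg m : (0 : ℝ) ≤ m)])]
    have h1 : (((2 * m + 1 : ℕ) : ℝ) + 1) / 2 = (m : ℝ) + 1 := by push_cast; ring
    rw [h1, Real.Gamma_nat_eq_factorial]
    have : (m.factorial : ℝ) ≠ 0 := by exact_mod_cast Nat.factorial_ne_zero m
    field_simp

instance (m : ℕ) : IsProbabilityMeasure (rho m) := by
  constructor
  unfold rho
  rw [withDensity_apply _ MeasurableSet.univ, Measure.restrict_univ,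
    ← ofReal_integral_eq_lintegral_ofReal (rho_integral m).1, (rho_integral m).2,
    ENNReal.ofReal_one]
  filter_upwards [ae_restrict_mem measurableSet_Ioi] with r hr
  have hr' : (0 : ℝ) < r := hr
  positivity

theorem rho_pos (m : ℕ) : ∀ᵐ r ∂(rho m), 0 < r := by
  unfold rho
  apply (withDensity_absolutelyContinuous _ _).ae_le
  exact ae_restrict_mem measurableSet_Ioi

/-- the (normalised) uniform measure on the unit sphere of `ℂ²` -/
noncomputable def sig : Measure (ℂ × ℂ) :=
  ENNReal.ofReal (Real.pi⁻¹ ^ 2 / 2) •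
    ((volume : Measure E2).toSphere.map (fun u : Metric.sphere (0 : E2) 1 => WithLp.ofLp u.1))

theorem measurable_ofLp : Measurable (fun u : Metric.sphere (0 : E2) 1 => WithLp.ofLp u.1) :=
  (WithLp.prod_continuous_ofLp 2 ℂ ℂ).measurable.comp measurable_subtype_coe

instance : IsFiniteMeasure sig := by
  unfold sig
  have := Measure.isFiniteMeasure_map ((volume : Measure E2).toSphere)
    (fun u : Metric.sphere (0 : E2) 1 => WithLp.ofLp u.1)
  exact Measure.smul_finite _ ENNReal.ofReal_ne_top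

theorem en_ofLp (x : E2) : en (WithLp.ofLp x) = ‖x‖ := by
  rw [WithLp.prod_norm_eq_of_L2]
  rfl

theorem sig_unit : ∀ᵐ u ∂sig, en u = 1 := by
  unfold sig
  apply Measure.ae_smul_measure
  rw [ae_map_iff measurable_ofLp.aemeasurable]
  · refine Eventually.of_forall fun u => ?_
    rw [en_ofLp]
    exact mem_sphere_zero_iff_norm.1 u.2
  · exact measurableSet_eq_fun continuous_en.measurable measurable_const

theorem polar (F : ℂ × ℂ → ℝ≥0∞) (hF : Measurable F) :
    ∫⁻ v, F v ∂(cg.prod cg) = ∫⁻ u, ∫⁻ r, F ((r : ℂ) • u) ∂(rho 1) ∂sig := by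
  have hen := continuous_en.measurable
  rw [lintegral_cg2 F hF, lintegral_E2 (fun v => ENNReal.ofReal (Real.pi⁻¹ ^ 2 *
    Real.exp (-en v ^ 2)) * F v) (Measurable.mul (by fun_prop) hF), lintegral_polar]
  · unfold sig
    rw [lintegral_smul_measure, lintegral_map]
    · rw [smul_eq_mul, ← lintegral_const_mul']
      · refine lintegral_congr fun u => ?_
        have hFm : Measurable fun r : ℝ => F ((r : ℂ) • WithLp.ofLp (u : E2)) := by
          apply hF.comp
          fun_prop
        rw [lintegral_rho 1 _ hFm, ← lintegral_const_mul']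
        · refine setLIntegral_congr_fun measurableSet_Ioi fun r hr => ?_
          have hr' : (0 : ℝ) < r := hr
          rw [en_ofLp, norm_smul, mem_sphere_zero_iff_norm.1 u.2, mul_one, ← mul_assoc,
            ← mul_assoc, ← ENNReal.ofReal_mul (by positivity), ← ENNReal.ofReal_mul (by positivity)]
          congr 1
          · congr 1
            rw [Real.norm_eq_abs, sq_abs]
            simp
            ring
        · exact ENNReal.ofReal_ne_top
      · exact ENNReal.ofReal_ne_top
    · apply Measurable.lintegral_prod_right'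
        (f := fun p : (ℂ × ℂ) × ℝ => F ((p.2 : ℂ) • p.1))
      apply hF.comp
      fun_prop
    · exact measurable_ofLp
  · have h1 : Measurable (fun x : E2 => WithLp.ofLp x) :=
      (WithLp.prod_continuous_ofLp 2 ℂ ℂ).measurable
    apply Measurable.mul
    · have := hen.comp h1
      fun_prop
    · exact hF.comp h1

end Pool.Agent.helper40.SG
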