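import Pool.Agent.helper40.SG.W2

/-!
# Radial and angular parts of the ensemble
-/

set_option autoImplicit false

open MeasureTheory ProbabilityTheory Filter Topology Set
open scoped NNReal ENNReal

namespace Pool.Agent.helper40.SG

open Pool.Agent.helper84.SG

theorem cg2_map : cg.prod cg =
    (sig.prod (rho 1)).map (fun p : (ℂ × ℂ) × ℝ => (p.2 : ℂ) • p.1) := by
  apply Measure.ext_of_lintegral
  intro F hF
  have hm : Measurable (fun p : (ℂ × ℂ) × ℝ => (p.2 : ℂ) • p.1) := by fun_prop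
  rw [polar F hF, lintegral_map hF hm, lintegral_prod
    (fun p : (ℂ × ℂ) × ℝ => F ((p.2 : ℂ) • p.1)) (hF.comp hm).aemeasurable]

theorem ens_polar (n : ℕ) (F : (Fin n → ℂ × ℂ) → ℝ≥0∞) (hF : Measurable F) :
    ∫⁻ v, F v ∂(ens n) = ∫⁻ u, ∫⁻ r, F (fun k => ((r k : ℝ) : ℂ) • u k)
      ∂(Measure.pi fun _ : Fin n => rho 1) ∂(Measure.pi fun _ : Fin n => sig) := by
  have hm : Measurable (fun p : (ℂ × ℂ) × ℝ => (p.2 : ℂ) • p.1) := by fun_prop
  have h1 : ens n = (Measure.pi fun _ : Fin n => sig.prod (rho 1)).map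
      (fun x i => ((x i).2 : ℂ) • (x i).1) := by
    unfold ens
    have : ∀ _ : Fin n, SigmaFinite ((sig.prod (rho 1)).map
        (fun p : (ℂ × ℂ) × ℝ => (p.2 : ℂ) • p.1)) := by
      intro _
      rw [← cg2_map]
      infer_instance
    rw [Measure.pi_map_pi (μ := fun _ : Fin n => sig.prod (rho 1))
      (f := fun _ (p : (ℂ × ℂ) × ℝ) => (p.2 : ℂ) • p.1) (fun _ => hm.aemeasurable)]
    congr 1
    funext _
    exact cg2_map
  have hm2 : Measurable (fun (x : Fin n → (ℂ × ℂ) × ℝ) (i : Fin n) => ((x i).2 : ℂ) • (x i).1) := by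
    fun_prop
  rw [h1, lintegral_map hF hm2]
  have hmp := measurePreserving_arrowProdEquivProdArrow (ℂ × ℂ) ℝ (Fin n) (fun _ => sig)
    (fun _ => rho 1)
  have hm3 : Measurable (fun p : (Fin n → ℂ × ℂ) × (Fin n → ℝ) =>
      F (fun k => ((p.2 k : ℝ) : ℂ) • p.1 k)) := by
    apply hF.comp
    fun_prop
  have h2 := hmp.lintegral_comp hm3
  rw [lintegral_prod _ hm3.aemeasurable] at h2
  exact h2

theorem pi_sig_unit (n : ℕ) : ∀ᵐ u ∂(Measure.pi fun _ : Fin n => sig), ∀ k, en (u k) = 1 := by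
  rw [ae_all_iff]
  intro k
  exact (Measure.tendsto_eval_ae_ae (μ := fun _ : Fin n => sig) (i := k)).eventually sig_unit

theorem pi_rho_pos (m n : ℕ) : ∀ᵐ r ∂(Measure.pi fun _ : Fin n => rho m), ∀ k, 0 < r k := by
  rw [ae_all_iff]
  intro k
  exact (Measure.tendsto_eval_ae_ae (μ := fun _ : Fin n => rho m) (i := k)).eventually (rho_pos m)

theorem ens_sep (n : ℕ) (F : (Fin n → ℂ × ℂ) → ℝ≥0∞) (hF : Measurable F)
    (G1 : (Fin n → ℝ) → ℝ≥0∞) (hG1 : Measurable G1) (G2 : (Fin n → ℂ × ℂ) → ℝ≥0∞)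
    (hG2 : Measurable G2)
    (h : ∀ r u, (∀ k, 0 < r k) → (∀ k, en (u k) = 1) →
      F (fun k => ((r k : ℝ) : ℂ) • u k) = G1 r * G2 u) :
    ∫⁻ v, F v ∂(ens n) = (∫⁻ r, G1 r ∂(Measure.pi fun _ : Fin n => rho 1)) *
      ∫⁻ u, G2 u ∂(Measure.pi fun _ : Fin n => sig) := by
  rw [ens_polar n F hF, ← lintegral_const_mul _ hG2]
  apply lintegral_congr_ae
  filter_upwards [pi_sig_unit n] with u hu
  rw [← lintegral_mul_const _ hG1]
  apply lintegral_congr_ae
  filter_upwards [pi_rho_pos 1 n] with r hr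
  exact h r u hr hu

theorem prod_pairs (n : ℕ) (x : Fin n → ℝ) :
    ∏ i, ∏ j ∈ Finset.Ioi i, (x i * x j) = (∏ k, x k) ^ (n - 1) := by
  have h1 : ∏ i, ∏ j ∈ Finset.Ioi i, (x i * x j) =
      (∏ i, x i ^ (n - 1 - (i : ℕ))) * ∏ j, x j ^ (j : ℕ) := by
    simp only [Finset.prod_mul_distrib, Finset.prod_const, Fin.card_Ioi]
    congr 1
    have : ∀ (f : Fin n → ℝ), ∏ i, ∏ j ∈ Finset.Ioi i, f j = ∏ j, ∏ _i ∈ Finset.Iio j, f j := by
      intro f
      apply Finset.prod_comm'
      intro i j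
      simp
    rw [this]
    simp only [Finset.prod_const, Fin.card_Iio]
  rw [h1, ← Finset.prod_mul_distrib, ← Finset.prod_pow]
  refine Finset.prod_congr rfl fun k _ => ?_
  rw [← pow_add]
  congr 1
  omega

theorem vand_smul {n : ℕ} (c : Fin n → ℂ) (v : Fin n → ℂ × ℂ) :
    vand (fun k => c k • v k) = (∏ k, ‖c k‖ ^ (2 * (n - 1))) * vand v := by
  unfold vand
  have h1 : ∀ i j, ‖(c i • v i).1 * (c j • v j).2 - (c j • v j).1 * (c i • v i).2‖ ^ 2 =
      (‖c i‖ ^ 2 * ‖c j‖ ^ 2) * ‖(v i).1 * (v j).2 - (v j).1 * (v i).2‖ ^ 2 := by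
    intro i j
    simp only [Prod.smul_fst, Prod.smul_snd, smul_eq_mul]
    have : c i * (v i).1 * (c j * (v j).2) - c j * (v j).1 * (c i * (v i).2) =
        c i * c j * ((v i).1 * (v j).2 - (v j).1 * (v i).2) := by ring
    rw [this, norm_mul, norm_mul]
    ring
  simp only [h1, Finset.prod_mul_distrib]
  congr 1
  have h2 := prod_pairs n (fun k => ‖c k‖ ^ 2)
  simp only [Finset.prod_mul_distrib] at h2
  rw [h2, ← Finset.prod_pow]
  refine Finset.prod_congr rfl fun k _ => ?_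
  rw [← pow_mul]

theorem continuous_vand (n : ℕ) : Continuous (vand : (Fin n → ℂ × ℂ) → ℝ) := by
  unfold vand
  fun_prop

theorem vand_nonneg {n : ℕ} (v : Fin n → ℂ × ℂ) : 0 ≤ vand v := by
  unfold vand
  exact Finset.prod_nonneg fun i _ => Finset.prod_nonneg fun j _ => by positivity

theorem vand_le {n : ℕ} (v : Fin n → ℂ × ℂ) (h : ∀ k, en (v k) = 1) :
    vand v ≤ ∏ i : Fin n, ∏ _j ∈ Finset.Ioi i, (4 : ℝ) := by
  have h1 : ∀ k, ‖(v k).1‖ ≤ 1 ∧ ‖(v k).2‖ ≤ 1 := by
    intro k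
    have := en_sq (v k)
    rw [h k] at this
    constructor <;> nlinarith [norm_nonneg (v k).1, norm_nonneg (v k).2]
  unfold vand
  refine Finset.prod_le_prod (fun i _ => Finset.prod_nonneg fun j _ => by positivity) fun i _ => ?_
  refine Finset.prod_le_prod (fun j _ => by positivity) fun j _ => ?_
  have h2 : ‖(v i).1 * (v j).2 - (v j).1 * (v i).2‖ ≤ 2 := by
    calc ‖(v i).1 * (v j).2 - (v j).1 * (v i).2‖ ≤ ‖(v i).1 * (v j).2‖ + ‖(v j).1 * (v i).2‖ :=
          norm_sub_le _ _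
      _ = ‖(v i).1‖ * ‖(v j).2‖ + ‖(v j).1‖ * ‖(v i).2‖ := by rw [norm_mul, norm_mul]
      _ ≤ 1 * 1 + 1 * 1 := by
          gcongr
          · exact (h1 i).1
          · exact (h1 j).2
          · exact (h1 j).1
          · exact (h1 i).2
      _ = 2 := by norm_num
  nlinarith [norm_nonneg ((v i).1 * (v j).2 - (v j).1 * (v i).2)]

/-- reweighting `rho 1` -/
theorem rho_reweight {n : ℕ} (hn : 1 ≤ n) (s : Set ℝ) (hs : MeasurableSet s) :
    ∫⁻ r in s, ENNReal.ofReal (r ^ (2 * (n - 1))) ∂(rho 1) =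
      (n.factorial : ℝ≥0∞) * rho n s := by
  have hm : Measurable fun r : ℝ => ENNReal.ofReal (r ^ (2 * (n - 1))) := by fun_prop
  rw [← lintegral_indicator hs, lintegral_rho 1 _ (hm.indicator hs)]
  have h2 : rho n s = ∫⁻ r, s.indicator 1 r ∂(rho n) := by
    rw [lintegral_indicator_one hs]
  rw [h2, lintegral_rho n _ (measurable_one.indicator hs), ← lintegral_const_mul']
  · refine setLIntegral_congr_fun measurableSet_Ioi fun r hr => ?_
    have hr' : (0 : ℝ) < r := hr
    by_cases h : r ∈ s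
    · simp only [indicator_of_mem h, Pi.one_apply, mul_one]
      rw [← ENNReal.ofReal_mul (by positivity), ← ENNReal.ofReal_natCast,
        ← ENNReal.ofReal_mul (by positivity)]
      congr 1
      have e : 2 * n + 1 = 3 + 2 * (n - 1) := by omega
      rw [e, pow_add]
      have : (n.factorial : ℝ) ≠ 0 := by exact_mod_cast Nat.factorial_ne_zero n
      field_simp
      simp
      ring
    · simp only [indicator_of_notMem h, mul_zero]
  · exact ENNReal.natCast_ne_top _

theorem kappa (n : ℕ) :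
    (Measure.pi fun _ : Fin n => rho 1).withDensity
      (fun r => ∏ k, ENNReal.ofReal ((r k) ^ (2 * (n - 1)))) =
      ((n.factorial : ℝ≥0∞) ^ n) • Measure.pi (fun _ : Fin n => rho n) := by
  have hc0 : (n.factorial : ℝ≥0∞) ^ n ≠ 0 := by
    apply pow_ne_zero
    exact_mod_cast Nat.factorial_ne_zero n
  have hct : (n.factorial : ℝ≥0∞) ^ n ≠ ∞ := ENNReal.pow_ne_top (ENNReal.natCast_ne_top _)
  have hm : Measurable fun r : ℝ => ENNReal.ofReal (r ^ (2 * (n - 1))) := by fun_prop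
  have key : Measure.pi (fun _ : Fin n => rho n) = ((n.factorial : ℝ≥0∞) ^ n)⁻¹ •
      (Measure.pi fun _ : Fin n => rho 1).withDensity
        (fun r => ∏ k, ENNReal.ofReal ((r k) ^ (2 * (n - 1)))) := by
    apply Measure.pi_eq
    intro s hs
    have hbox : MeasurableSet (Set.pi univ s) := MeasurableSet.univ_pi hs
    rw [Measure.smul_apply, smul_eq_mul, withDensity_apply _ hbox]
    have e1 : ∫⁻ r in Set.pi univ s, ∏ k, ENNReal.ofReal ((r k) ^ (2 * (n - 1)))
        ∂(Measure.pi fun _ : Fin n => rho 1) =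
        ∫⁻ r, ∏ k, (s k).indicator (fun r : ℝ => ENNReal.ofReal (r ^ (2 * (n - 1)))) (r k)
          ∂(Measure.pi fun _ : Fin n => rho 1) := by
      rw [← lintegral_indicator hbox]
      refine lintegral_congr fun r => ?_
      by_cases h : r ∈ Set.pi univ s
      · rw [indicator_of_mem h]
        refine Finset.prod_congr rfl fun k _ => ?_
        rw [indicator_of_mem (h k (mem_univ k))]
      · rw [indicator_of_notMem h]
        rw [Set.mem_univ_pi] at h
        push Not at h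
        obtain ⟨k, hk⟩ := h
        exact (Finset.prod_eq_zero (Finset.mem_univ k) (indicator_of_notMem hk _)).symm
    have e2 : ∫⁻ r, ∏ k, (s k).indicator (fun r : ℝ => ENNReal.ofReal (r ^ (2 * (n - 1)))) (r k)
          ∂(Measure.pi fun _ : Fin n => rho 1) =
        ∏ k, ∫⁻ r, (s k).indicator (fun r : ℝ => ENNReal.ofReal (r ^ (2 * (n - 1)))) (r k)
          ∂(Measure.pi fun _ : Fin n => rho 1) := by
      apply lintegral_prod_eq_prod_lintegral_of_indepFun Finset.univ
        (fun k (r : Fin n → ℝ) =>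
          (s k).indicator (fun r : ℝ => ENNReal.ofReal (r ^ (2 * (n - 1)))) (r k))
      · exact iIndepFun_pi (μ := fun _ : Fin n => rho 1)
          (X := fun k => (s k).indicator (fun r : ℝ => ENNReal.ofReal (r ^ (2 * (n - 1)))))
          (fun k => (hm.indicator (hs k)).aemeasurable)
      · intro k
        exact (hm.indicator (hs k)).comp (measurable_pi_apply k)
    rw [e1, e2]
    have e3 : ∀ k : Fin n, ∫⁻ r, (s k).indicator
        (fun r : ℝ => ENNReal.ofReal (r ^ (2 * (n - 1)))) (r k)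
          ∂(Measure.pi fun _ : Fin n => rho 1) = (n.factorial : ℝ≥0∞) * rho n (s k) := by
      intro k
      have hmp := measurePreserving_eval (fun _ : Fin n => rho 1) k
      have h := hmp.lintegral_comp (hm.indicator (hs k))
      simp only [Function.eval] at h
      rw [h, lintegral_indicator (hs k)]
      exact rho_reweight (by have := k.2; omega) _ (hs k)
    simp only [e3]
    rw [Finset.prod_mul_distrib, Finset.prod_const, Finset.card_univ, Fintype.card_fin, ← mul_assoc,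
      ENNReal.inv_mul_cancel hc0 hct, one_mul]
  rw [key, smul_smul, ENNReal.mul_inv_cancel hc0 hct, one_smul]

/-- expectation of `g (∏ r_k)` -/
noncomputable def AA (n : ℕ) (g : ℝ → ℝ≥0∞) : ℝ≥0∞ :=
  ∫⁻ r, g (∏ k, r k) ∂(Measure.pi fun _ : Fin n => rho n)

/-- angular integral -/
noncomputable def BB (n : ℕ) (Ψ : (Fin (n + 1) → ℂ) → ℝ≥0∞) : ℝ≥0∞ :=
  ∫⁻ u, Ψ (pcoef n (vpoly u)) * ENNReal.ofReal (vand u) ∂(Measure.pi fun _ : Fin n => sig)

theorem measurable_vcoef (n : ℕ) : Measurable fun v : Fin n → ℂ × ℂ => pcoef n (vpoly v) :=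
  (continuous_vpoly n).measurable

theorem ens_factor (n : ℕ) (g : ℝ → ℝ≥0∞) (hg : Measurable g) (Ψ : (Fin (n + 1) → ℂ) → ℝ≥0∞)
    (hΨ : Measurable Ψ) (hinv : ∀ (c : ℂ) (f), c ≠ 0 → Ψ (c • f) = Ψ f) :
    ∫⁻ v, g (Wc (pcoef n (vpoly v))) * Ψ (pcoef n (vpoly v)) * ENNReal.ofReal (vand v) ∂(ens n) =
      (n.factorial : ℝ≥0∞) ^ n * AA n g * BB n Ψ := by
  have hW := measurable_Wc n
  have hv := measurable_vcoef n
  have hvand := (continuous_vand n).measurable
  have hmprod : Measurable fun r : Fin n → ℝ => ∏ k, r k := by fun_prop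
  have hmdens : Measurable fun r : Fin n → ℝ =>
      ∏ k, ENNReal.ofReal ((r k) ^ (2 * (n - 1))) := by fun_prop
  rw [ens_sep n (fun v => g (Wc (pcoef n (vpoly v))) * Ψ (pcoef n (vpoly v)) *
    ENNReal.ofReal (vand v)) (((hg.comp (hW.comp hv)).mul (hΨ.comp hv)).mul
      (ENNReal.measurable_ofReal.comp hvand))
    (fun r => (∏ k, ENNReal.ofReal ((r k) ^ (2 * (n - 1)))) * g (∏ k, r k))
    (hmdens.mul (hg.comp hmprod))
    (fun u => Ψ (pcoef n (vpoly u)) * ENNReal.ofReal (vand u))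
    ((hΨ.comp hv).mul (ENNReal.measurable_ofReal.comp hvand))]
  · unfold AA BB
    congr 1
    have h1 := lintegral_withDensity_eq_lintegral_mul
      (Measure.pi fun _ : Fin n => rho 1) hmdens (hg.comp hmprod)
    rw [kappa, lintegral_smul_measure, smul_eq_mul] at h1
    exact h1.symm
  · intro r u hr hu
    rw [Wc_vpoly, vpoly_smul, pcoef_C_mul, vand_smul]
    have hc : (∏ k, ((r k : ℝ) : ℂ)) ≠ 0 := by
      rw [Finset.prod_ne_zero_iff]
      intro k _
      exact_mod_cast (hr k).ne'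
    rw [hinv _ _ hc]
    have h1 : ∀ k, en ((r k : ℂ) • u k) = r k := by
      intro k
      rw [en_smul, hu k, mul_one, Complex.norm_real, Real.norm_eq_abs, abs_of_pos (hr k)]
    simp only [h1]
    have h2 : ∀ k, ‖((r k : ℝ) : ℂ)‖ = r k := fun k => by
      rw [Complex.norm_real, Real.norm_eq_abs, abs_of_pos (hr k)]
    simp only [h2]
    rw [ENNReal.ofReal_mul (Finset.prod_nonneg fun k _ => pow_nonneg (hr k).le _),
      ENNReal.ofReal_prod_of_nonneg (fun k _ => pow_nonneg (hr k).le _)]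
    ring

theorem AA_one (n : ℕ) : AA n (fun _ => 1) = 1 := by
  unfold AA
  simp

theorem CC_eq (n : ℕ) : ∫⁻ v, ENNReal.ofReal (vand v) ∂(ens n) =
    (n.factorial : ℝ≥0∞) ^ n * BB n (fun _ => 1) := by
  have := ens_factor n (fun _ => 1) measurable_const (fun _ => 1) measurable_const
    (fun _ _ _ => rfl)
  simpa [AA_one] using this

theorem CC_ne_top (n : ℕ) : ∫⁻ v, ENNReal.ofReal (vand v) ∂(ens n) ≠ ∞ := by
  rw [CC_eq]
  apply ENNReal.mul_ne_top (ENNReal.pow_ne_top (ENNReal.natCast_ne_top _))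
  unfold BB
  have h : ∫⁻ u, 1 * ENNReal.ofReal (vand u) ∂(Measure.pi fun _ : Fin n => sig) ≤
      ∫⁻ _u, ENNReal.ofReal (∏ i : Fin n, ∏ _j ∈ Finset.Ioi i, (4 : ℝ))
        ∂(Measure.pi fun _ : Fin n => sig) := by
    apply lintegral_mono_ae
    filter_upwards [pi_sig_unit n] with u hu
    rw [one_mul]
    exact ENNReal.ofReal_le_ofReal (vand_le u hu)
  refine ne_top_of_le_ne_top ?_ h
  rw [lintegral_const]
  exact ENNReal.mul_ne_top ENNReal.ofReal_ne_top (measure_ne_top _ _)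

theorem vol_ac_cg : (volume : Measure ℂ) ≪ cg := by
  intro s hs
  have h1 : ∀ t, MeasurableSet t → cg t = 0 → (volume : Measure ℂ) t = 0 := by
    intro t ht h0
    rw [← lintegral_indicator_one ht, lintegral_cg _ (measurable_one.indicator ht)] at h0
    have h0' := (lintegral_eq_zero_iff (f := fun z : ℂ =>
      ENNReal.ofReal (Real.pi⁻¹ * Real.exp (-‖z‖ ^ 2)) * t.indicator 1 z)
      ((by fun_prop : Measurable fun z : ℂ =>
      ENNReal.ofReal (Real.pi⁻¹ * Real.exp (-‖z‖ ^ 2))).mul (measurable_one.indicator ht))).1 h0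
    rw [← compl_compl t, ← mem_ae_iff]
    filter_upwards [h0'] with z hz
    intro hzt
    simp only [Pi.zero_apply, mul_eq_zero, ENNReal.ofReal_eq_zero] at hz
    rcases hz with hz | hz
    · have : 0 < Real.pi⁻¹ * Real.exp (-‖z‖ ^ 2) := by positivity
      linarith
    · rw [indicator_of_mem hzt] at hz
      simp at hz
  obtain ⟨t, hst, ht, h0⟩ := exists_measurable_superset_of_null hs
  exact measure_mono_null hst (h1 t ht h0)

instance : Measure.IsOpenPosMeasure cg := vol_ac_cg.isOpenPosMeasure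

theorem CC_ne_zero (n : ℕ) : ∫⁻ v, ENNReal.ofReal (vand v) ∂(ens n) ≠ 0 := by
  intro h0
  have h0' := (lintegral_eq_zero_iff (f := fun v : Fin n → ℂ × ℂ => ENNReal.ofReal (vand v))
    (ENNReal.measurable_ofReal.comp (continuous_vand n).measurable)).1 h0
  have h1 : (vand : (Fin n → ℂ × ℂ) → ℝ) =ᵐ[ens n] fun _ => 0 := by
    filter_upwards [h0'] with v hv
    simp only [Pi.zero_apply, ENNReal.ofReal_eq_zero] at hv
    exact le_antisymm hv (vand_nonneg v)
  have hop : Measure.IsOpenPosMeasure (ens n) := by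
    unfold ens
    infer_instance
  have h2 := (continuous_vand n).ae_eq_iff_eq (μ := ens n) continuous_const |>.1 h1
  have h3 := congrFun h2 (fun k : Fin n => (((k : ℕ) : ℂ), 1))
  have h4 : vand (fun k : Fin n => (((k : ℕ) : ℂ), (1 : ℂ))) ≠ 0 := by
    unfold vand
    rw [Finset.prod_ne_zero_iff]
    intro i _
    rw [Finset.prod_ne_zero_iff]
    intro j hj
    have hij : i < j := Finset.mem_Ioi.1 hj
    simp only [mul_one, ne_eq, pow_eq_zero_iff, OfNat.ofNat_ne_zero, not_false_eq_true,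
      norm_eq_zero]
    rw [sub_eq_zero]
    intro h
    have : (i : ℕ) = (j : ℕ) := by exact_mod_cast h
    exact hij.ne (Fin.ext this)
  exact h4 h3

end Pool.Agent.helper40.SG
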